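import Pool.Agent.H36.WOT.S1

/-!
# WOT, row BIN: binomial coefficients at consecutive integers
-/

set_option autoImplicit false

namespace Pool.WOT

/-- The shifted set. -/
theorem sum_shift (z : ℕ) (J : Finset ℕ) (hJ : J ⊆ Finset.range (z + 1)) (F : ℕ → ℂ) :
    ∑ j ∈ J, F j = (if 0 ∈ J then F 0 else 0) +
      ∑ j ∈ (Finset.range z).filter (fun j => j + 1 ∈ J), F (j + 1) := by
  have h1 : ∑ j ∈ J, F j = ∑ j ∈ Finset.range (z + 1), if j ∈ J then F j else 0 := by
    rw [← Finset.sum_filter]
    refine Finset.sum_congr ?_ fun _ _ => rfl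
    ext j
    rw [Finset.mem_filter]
    exact ⟨fun h => ⟨hJ h, h⟩, fun h => h.2⟩
  rw [h1, Finset.sum_range_succ', add_comm, Finset.sum_filter]

theorem card_shift (z : ℕ) (J : Finset ℕ) (hJ : J ⊆ Finset.range (z + 1)) :
    J.card = (if 0 ∈ J then 1 else 0) +
      ((Finset.range z).filter (fun j => j + 1 ∈ J)).card := by
  have h1 : J.card = ∑ j ∈ Finset.range (z + 1), if j ∈ J then 1 else 0 := by
    rw [← Finset.sum_filter, Finset.card_eq_sum_ones]
    refine Finset.sum_congr ?_ fun _ _ => rfl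
    ext j
    rw [Finset.mem_filter]
    exact ⟨fun h => ⟨hJ h, h⟩, fun h => h.2⟩
  rw [h1, Finset.sum_range_succ', add_comm, Finset.card_filter]

theorem bin_aux : ∀ (z f : ℕ) (J : Finset ℕ) (lam : ℕ → ℂ), J ⊆ Finset.range z → J.card = f →
    (∀ x, z ≤ x + f → x < z → ∑ j ∈ J, lam j * (Nat.choose x j : ℂ) = 0) →
      ∀ j ∈ J, lam j = 0 := by
  intro z
  induction z with
  | zero =>
    intro f J lam hJ _ _ j hj
    have := hJ hj
    simp at this
  | succ z ih =>
    intro f J lam hJ hf h
    obtain ⟨J', hJ'⟩ : ∃ J' : Finset ℕ, J' = (Finset.range z).filter (fun j => j + 1 ∈ J) :=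
      ⟨_, rfl⟩
    have hs := fun F => sum_shift z J hJ F
    have hc := card_shift z J hJ
    rw [← hJ'] at hc
    have hJz : J' ⊆ Finset.range z := by
      rw [hJ']
      exact Finset.filter_subset _ _
    have hmem : ∀ j, j + 1 ∈ J → j ∈ J' := by
      intro j hj
      rw [hJ', Finset.mem_filter, Finset.mem_range]
      have h1 := Finset.mem_range.1 (hJ hj)
      exact ⟨by omega, hj⟩
    by_cases h0 : 0 ∈ J
    · rw [if_pos h0] at hc
      obtain ⟨f', rfl⟩ : ∃ f', f = f' + 1 := ⟨J'.card, by omega⟩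
      have h1 : ∀ j ∈ J', lam (j + 1) = 0 := by
        refine ih f' J' (fun j => lam (j + 1)) hJz (by omega) fun x hx1 hx2 => ?_
        have e1 := h (x + 1) (by omega) (by omega)
        have e2 := h x (by omega) (by omega)
        rw [hs] at e1 e2
        rw [← hJ', if_pos h0] at e1 e2
        have e3 : ∑ j ∈ J', lam (j + 1) * (Nat.choose (x + 1) (j + 1) : ℂ) =
            ∑ j ∈ J', lam (j + 1) * (Nat.choose x j : ℂ) +
              ∑ j ∈ J', lam (j + 1) * (Nat.choose x (j + 1) : ℂ) := by
          rw [← Finset.sum_add_distrib]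
          refine Finset.sum_congr rfl fun j _ => ?_
          rw [Nat.choose_succ_succ]
          push_cast
          ring
        rw [e3] at e1
        simp only [Nat.choose_zero_right, Nat.cast_one, mul_one] at e1 e2
        have e4 : lam 0 + ∑ j ∈ J', lam (j + 1) * (Nat.choose x (j + 1) : ℂ) = 0 := e2
        linear_combination e1 - e4
      intro j hj
      rcases Nat.eq_zero_or_pos j with hj0 | hj0
      · have e1 := h z (by omega) (by omega)
        rw [hs, ← hJ', if_pos h0, Finset.sum_eq_zero (fun j hj => by rw [h1 j hj, zero_mul])] at e1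
        simp only [Nat.choose_zero_right, Nat.cast_one, mul_one, add_zero] at e1
        rw [hj0]
        exact e1
      · obtain ⟨i, rfl⟩ : ∃ i, j = i + 1 := ⟨j - 1, by omega⟩
        exact h1 i (hmem i hj)
    · rw [if_neg h0] at hc
      have h1 : ∀ j ∈ J', lam (j + 1) / ((j + 1 : ℕ) : ℂ) = 0 := by
        refine ih f J' (fun j => lam (j + 1) / ((j + 1 : ℕ) : ℂ)) hJz (by omega)
          fun x hx1 hx2 => ?_
        have e1 := h (x + 1) (by omega) (by omega)
        rw [hs, ← hJ', if_neg h0, zero_add] at e1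
        have e2 : ∑ j ∈ J', lam (j + 1) * (Nat.choose (x + 1) (j + 1) : ℂ) =
            ((x + 1 : ℕ) : ℂ) * ∑ j ∈ J', lam (j + 1) / ((j + 1 : ℕ) : ℂ) *
              (Nat.choose x j : ℂ) := by
          rw [Finset.mul_sum]
          refine Finset.sum_congr rfl fun j _ => ?_
          have e3 : ((x + 1 : ℕ) : ℂ) * (Nat.choose x j : ℂ) =
              (Nat.choose (x + 1) (j + 1) : ℂ) * ((j + 1 : ℕ) : ℂ) := by
            exact_mod_cast Nat.add_one_mul_choose_eq x j
          have e4 : ((j + 1 : ℕ) : ℂ) ≠ 0 := by exact_mod_cast Nat.succ_ne_zero j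
          rw [div_mul_eq_mul_div, mul_div_assoc', eq_div_iff e4]
          linear_combination (-lam (j + 1)) * e3
        rw [e2] at e1
        have e5 : ((x + 1 : ℕ) : ℂ) ≠ 0 := by exact_mod_cast Nat.succ_ne_zero x
        exact (mul_eq_zero.1 e1).resolve_left e5
      intro j hj
      obtain ⟨i, rfl⟩ : ∃ i, j = i + 1 := ⟨j - 1, by
        rcases Nat.eq_zero_or_pos j with hj0 | hj0
        · rw [hj0] at hj
          exact absurd hj h0
        · omega⟩
      have h2 := h1 i (hmem i hj)
      have e4 : ((i + 1 : ℕ) : ℂ) ≠ 0 := by exact_mod_cast Nat.succ_ne_zero i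
      exact (div_eq_zero_iff.1 h2).resolve_right e4

theorem t_bin : BINStmt := fun f z J lam => bin_aux z f J lam

end Pool.WOT
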