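import Pool.Agent.H36.WOT.S1

/-!
# WOT, rows DYN, FAT: the process ends in time; the triangle
-/

set_option autoImplicit false

namespace Pool.WOT

open MvPolynomial Pool.FOS Pool.TRN

theorem nx_le (m R : ℕ) (y : ℕ → ℕ) (t : ℕ) : nx m R y t ≤ y t := Nat.sub_le _ _

theorem it_le (m R : ℕ) (y : ℕ → ℕ) (t b : ℕ) : ∀ a : ℕ, (nx m R)^[a + b] y t ≤ (nx m R)^[b] y t
  | 0 => by rw [Nat.zero_add]
  | a + 1 => by
    rw [show a + 1 + b = (a + b) + 1 by omega, Function.iterate_succ_apply']
    exact (nx_le m R _ t).trans (it_le m R y t b a)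

theorem t_dyn (h_ins : INSStmt) (h_sum : SUMStmt) (h_fin : FINStmt) : DYNStmt := by
  intro m R q L s
  induction s generalizing q L with
  | zero =>
    intro y hm hI hs t ht
    have h1 : y t ≤ ∑ t ∈ Finset.range (R + 1), y t :=
      Finset.single_le_sum (f := y) (fun i _ => Nat.zero_le _)
        (Finset.mem_range.2 (by omega))
    have h2 := nx_le m R y t
    rw [zero_mul] at hs
    show nx m R y t = 0
    omega
  | succ s ih =>
    intro y hm hI hs t ht
    rcases Nat.lt_or_ge q m with hq | hq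
    · obtain ⟨f1, f2⟩ := h_fin m R q L y hm hI hq
      rcases Nat.eq_zero_or_pos s with h0 | h0
      · subst h0
        exact f2 (by omega) t ht
      · have h1 := it_le m R y t 3 (s - 1)
        have h2 := f1 t ht
        have e : s + 1 + 1 = s - 1 + 3 := by omega
        rw [e]
        omega
    · obtain ⟨L', hI'⟩ := h_ins m R q L y hm hI hq
      have h1 := h_sum m R q L y hm hI hq
      rw [Function.iterate_succ_apply]
      refine ih (L - m) L' (nx m R y) hm hI' ?_ t ht
      rw [Nat.succ_mul] at hs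
      omega

theorem sh_tri (D : ℕ) : Sh (D + 1) (fun t => if t ≤ D + 1 then t else 0) = Tri D := by
  ext ⟨a, b⟩
  unfold Sh Tri box
  rw [Finset.mem_biUnion, Finset.mem_filter, Finset.mem_product]
  constructor
  · rintro ⟨c, hc, h⟩
    rw [Finset.mem_image] at h
    obtain ⟨x, hx, he⟩ := h
    rw [Finset.mem_range] at hc hx
    dsimp only at hx
    rw [if_pos (by omega)] at hx
    obtain ⟨rfl, rfl⟩ := Prod.mk.inj he
    simp only [Finset.mem_range]
    omega
  · rintro ⟨⟨h1, h2⟩, h3⟩
    simp only [Finset.mem_range] at h1 h2 h3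
    refine ⟨b, Finset.mem_range.2 h2, ?_⟩
    rw [Finset.mem_image]
    refine ⟨a, ?_, rfl⟩
    rw [Finset.mem_range]
    dsimp only
    rw [if_pos (by omega)]
    omega

theorem t_fat (h_itr : ITRStmt) (h_dyn : DYNStmt) : FATStmt := by
  intro m s D hm hs
  rw [← sh_tri D]
  obtain ⟨y, hy⟩ : ∃ y : ℕ → ℕ, y = fun t => if t ≤ D + 1 then t else 0 := ⟨_, rfl⟩
  rw [← hy]
  refine h_itr m (s + 1) (D + 1) y fun t _ ht => ?_
  refine h_dyn m (D + 1) (D + 1) (D + 1) s y hm ?_ ?_ t ht
  · refine ⟨fun t ht => ?_, fun t ht => ?_, fun t ht => ?_, le_rfl, le_rfl, by omega,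
      fun _ t h1 h2 => ?_⟩
    · rw [hy]
      dsimp only
      rw [if_pos ht]
    · rw [hy]
      dsimp only
      rw [if_neg (by omega)]
      exact Nat.zero_le _
    · rw [hy]
      dsimp only
      rw [if_neg (by omega)]
    · omega
  · have h1 : ∑ t ∈ Finset.range (D + 1 + 1), y t = ∑ t ∈ Finset.range (D + 1 + 1), t := by
      refine Finset.sum_congr rfl fun t ht => ?_
      rw [hy]
      dsimp only
      rw [if_pos (by have := Finset.mem_range.1 ht; omega)]
    have h2 := Finset.sum_range_id_mul_two (D + 1 + 1)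
    have e1 : (D + 1 + 1) * (D + 1 + 1 - 1) = (D + 1) * (D + 2) := by
      rw [Nat.add_sub_cancel]
      ring
    rw [e1] at h2
    have h3 : 2 ∣ m * (m + 1) := even_iff_two_dvd.1 (Nat.even_mul_succ_self m)
    have h4 : s * (m * (m + 1)) = s * (m * (m + 1) / 2) * 2 := by
      rw [mul_assoc, Nat.div_mul_cancel h3]
    rw [h1]
    omega

end Pool.WOT
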